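import Pool.Agent.K3h88.Erde.Stm2

/-!
# Cycles from connected graphs with all degrees two; exchange of two edges (brick CYCEX)
-/

set_option autoImplicit false

namespace Pool.Agent.K3h77.Erde

open Pool.Agent.K3h88.Erde

theorem cyc : StmCyc := by
  classical
  intro V _ H W h2 h0 hreach u v huv
  have : Fintype V := Fintype.ofFinite V
  have hW : ∀ y z, H.Adj y z → y ∈ W := by
    intro y z hyz
    by_contra hy
    have h1 := h0 y hy
    have h3 : z ∈ H.neighborSet y := hyz
    rw [h1] at h3
    exact h3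
  have hcyc : H.IsCycles := by
    intro y ⟨z, hz⟩
    exact h2 y (hW y z hz)
  have hsupp : (H.connectedComponentMk u).supp = W := by
    ext y
    rw [SimpleGraph.ConnectedComponent.mem_supp_iff, SimpleGraph.ConnectedComponent.eq]
    constructor
    · rintro ⟨p⟩
      cases p with
      | nil => exact hW _ _ huv
      | cons h _ => exact hW _ _ h
    · intro hy
      exact hreach y u hy (hW _ _ huv)
  obtain ⟨p0, hp0, hp0v⟩ := hcyc.exists_cycle_toSubgraph_verts_eq_connectedComponentSupp
    (c := H.connectedComponentMk u) (v := u)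
    (by rw [hsupp]; exact hW _ _ huv) ⟨v, huv⟩
  have hadj : p0.toSubgraph.Adj u v := by
    rw [hp0.adj_toSubgraph_iff_of_isCycles hcyc (by rw [hp0v, hsupp]; exact hW _ _ huv)]
    exact huv
  obtain ⟨p, hp, hpv, hpverts⟩ := hp0.exists_isCycle_snd_verts_eq hadj
  rw [hp0v, hsupp] at hpverts
  have h3 : 3 ≤ p.length := hp.three_le_length
  have hinj : Set.InjOn p.getVert (Set.Iio p.length) := by
    refine hp.getVert_injOn'.mono (fun j hj => ?_)
    simp only [Set.mem_Iio] at hj
    simp only [Set.mem_ofPred_eq]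
    omega
  have hmem : ∀ y, y ∈ W ↔ ∃ j, j < p.length ∧ p.getVert j = y := by
    intro y
    rw [← hpverts, SimpleGraph.Walk.mem_verts_toSubgraph,
      SimpleGraph.Walk.mem_support_iff_exists_getVert]
    constructor
    · rintro ⟨j, hj, hjl⟩
      by_cases h : j = p.length
      · refine ⟨0, by omega, ?_⟩
        rw [SimpleGraph.Walk.getVert_zero, ← hj, h, SimpleGraph.Walk.getVert_length]
      · exact ⟨j, by omega, hj⟩
    · rintro ⟨j, hj, hjl⟩
      exact ⟨j, hjl, by omega⟩
  have hcard : W.ncard = p.length := by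
    have h4 : W = p.getVert '' (Set.Iio p.length) := by
      ext y
      rw [hmem]
      simp [Set.mem_image]
    rw [h4, hinj.ncard_image]
    rw [Set.ncard_eq_toFinset_card']
    simp
  rw [hcard]
  refine ⟨p.getVert, ⟨h3, ?_, hinj⟩, p.getVert_zero, hpv, hmem, ?_⟩
  · rw [SimpleGraph.Walk.getVert_zero, SimpleGraph.Walk.getVert_length]
  · ext e
    induction e using Sym2.ind with
    | _ x y =>
      rw [SimpleGraph.mem_edgeSet]
      constructor
      · intro hxy
        have h5 : x ∈ p.toSubgraph.verts := by rw [hpverts]; exact hW _ _ hxy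
        have h6 := (hp.adj_toSubgraph_iff_of_isCycles hcyc h5 y).2 hxy
        rw [SimpleGraph.Walk.toSubgraph_adj_iff] at h6
        obtain ⟨i, hi, hil⟩ := h6
        exact ⟨i, hil, hi.symm⟩
      · rintro ⟨i, hil, hi⟩
        have h6 : p.toSubgraph.Adj x y := by
          rw [SimpleGraph.Walk.toSubgraph_adj_iff]
          exact ⟨i, hi.symm, hil⟩
        exact h6.adj_sub

/-- one of the two paths of the exchange -/
def pth {V : Type} (M : ℕ) (c c' : ℕ → V) (j : ℕ) : V := if j < M then c (j + 1) else c' 1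

theorem isPk_pth {V : Type} {M : ℕ} {c c' : ℕ → V} (hc : IsCyc c M)
    (h1 : ∀ j, j < M → c j ≠ c' 1) : IsPk M (pE (pth M c c') M) := by
  refine ⟨pth M c c', ?_, rfl⟩
  obtain ⟨hM, hc0, hinj⟩ := hc
  have hne : ∀ j, j < M → c (j + 1) ≠ c' 1 := by
    intro j hj
    by_cases h : j + 1 = M
    · rw [h, hc0]; exact h1 0 (by omega)
    · exact h1 (j + 1) (by omega)
  have hinj' : ∀ i j, i < M → j < M → c (i + 1) = c (j + 1) → i = j := by
    intro i j hi hj hij
    by_cases hi1 : i + 1 = M
    · by_cases hj1 : j + 1 = M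
      · omega
      · rw [hi1, hc0] at hij
        have := hinj (show (0 : ℕ) < M by omega) (show j + 1 < M by omega) hij
        omega
    · by_cases hj1 : j + 1 = M
      · rw [hj1, hc0] at hij
        have := hinj (show i + 1 < M by omega) (show (0 : ℕ) < M by omega) hij
        omega
      · have := hinj (show i + 1 < M by omega) (show j + 1 < M by omega) hij
        omega
  intro i hi j hj hij
  simp only [Set.mem_Iic] at hi hj
  simp only [pth] at hij
  split_ifs at hij with g1 g2 g2
  · exact hinj' i j g1 g2 hij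
  · exact absurd hij (hne i g1)
  · exact absurd hij.symm (hne j g2)
  · omega

theorem mem_pth {V : Type} {M : ℕ} {c c' : ℕ → V} (hc : IsCyc c M) (h00 : c 0 = c' 0)
    (e : Sym2 V) : e ∈ pE (pth M c c') M ↔
      (∃ j, 0 < j ∧ j < M ∧ e = s(c j, c (j + 1))) ∨ e = s(c' 0, c' 1) := by
  obtain ⟨hM, hc0, hinj⟩ := hc
  constructor
  · rintro ⟨j, hj, rfl⟩
    simp only [pth]
    by_cases h : j + 1 < M
    · left
      refine ⟨j + 1, by omega, h, ?_⟩
      rw [if_pos hj, if_pos h]
    · right
      have h4 : j + 1 = M := by omega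
      rw [if_pos hj, if_neg h, h4, hc0, h00]
  · rintro (⟨j, hj0, hj, rfl⟩ | rfl)
    · refine ⟨j - 1, by omega, ?_⟩
      simp only [pth]
      rw [if_pos (by omega), if_pos (by omega), show j - 1 + 1 = j by omega]
    · refine ⟨M - 1, by omega, ?_⟩
      simp only [pth]
      rw [if_pos (by omega), if_neg (by omega), show M - 1 + 1 = M by omega, hc0, h00]

/-- the edges of a cycle are distinct from the first one -/
theorem ne_first {V : Type} {M : ℕ} {c : ℕ → V} (hc : IsCyc c M) {j : ℕ} (hj0 : 0 < j)
    (hj : j < M) : s(c j, c (j + 1)) ≠ s(c 0, c 1) := by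
  obtain ⟨hM, hc0, hinj⟩ := hc
  intro h
  rw [Sym2.eq_iff] at h
  rcases h with ⟨h1, _⟩ | ⟨h1, h2⟩
  · have := hinj (show j < M by omega) (show (0 : ℕ) < M by omega) h1
    omega
  · have h3 := hinj (show j < M by omega) (show (1 : ℕ) < M by omega) h1
    subst h3
    have := hinj (show 1 + 1 < M by omega) (show (0 : ℕ) < M by omega) h2
    omega

theorem ex : StmEx := by
  intro V M c c' hc hc' h00 h1 h1' hdis
  have hM : 3 ≤ M := hc.1
  have hdis' : Disjoint (pE (pth M c c') M) (pE (pth M c' c) M) := by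
    rw [Set.disjoint_left]
    intro e he he'
    rw [mem_pth hc h00] at he
    rw [mem_pth hc' h00.symm] at he'
    rw [Set.disjoint_left] at hdis
    rcases he with ⟨j, hj0, hj, rfl⟩ | rfl
    · rcases he' with ⟨i, hi0, hi, h⟩ | h
      · exact hdis ⟨j, hj, rfl⟩ ⟨i, hi, h⟩
      · exact ne_first hc hj0 hj h
    · rcases he' with ⟨i, hi0, hi, h⟩ | h
      · exact ne_first hc' hi0 hi h.symm
      · exact hdis ⟨0, by omega, h⟩ ⟨0, by omega, rfl⟩
  refine ⟨![pE (pth M c c') M, pE (pth M c' c) M], ?_, ?_, ?_⟩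
  · intro i
    fin_cases i
    · exact isPk_pth hc h1
    · exact isPk_pth hc' h1'
  · intro i j hij
    fin_cases i <;> fin_cases j
    · exact absurd rfl hij
    · exact hdis'
    · exact hdis'.symm
    · exact absurd rfl hij
  · ext e
    simp only [Set.mem_union, Set.mem_iUnion, Fin.exists_fin_two, Matrix.cons_val_zero,
      Matrix.cons_val_one]
    rw [mem_pth hc h00, mem_pth hc' h00.symm]
    constructor
    · rintro (⟨j, hj, rfl⟩ | ⟨j, hj, rfl⟩)
      · by_cases h : j = 0
        · subst h
          right; right; rfl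
        · left; left
          exact ⟨j, by omega, hj, rfl⟩
      · by_cases h : j = 0
        · subst h
          left; right; rfl
        · right; left
          exact ⟨j, by omega, hj, rfl⟩
    · rintro ((⟨j, hj0, hj, rfl⟩ | rfl) | (⟨j, hj0, hj, rfl⟩ | rfl))
      · left; exact ⟨j, hj, rfl⟩
      · right; exact ⟨0, by omega, rfl⟩
      · right; exact ⟨j, hj, rfl⟩
      · left; exact ⟨0, by omega, rfl⟩

end Pool.Agent.K3h77.Erde
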