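import Pool.Agent.K3h88.Erde.Stm

/-!
# Second Hamiltonian cycle in the triple product (brick T0Y)
-/

set_option autoImplicit false

namespace Pool.Agent.K3h77.Erde

open Pool.Agent.K3h88.Erde

section Switch

variable {V : Type}

open Classical in
/-- reversal of the time on the intervals `(p c, q c]` -/
noncomputable def rho (n : ℕ) (p q : ℕ → ℕ) (t : ℕ) : ℕ :=
  if h : ∃ c, c < n ∧ p c < t ∧ t ≤ q c then p h.choose + 1 + q h.choose - t else t

variable {n : ℕ} {p q : ℕ → ℕ}

theorem rho_in (hpq : ∀ c, c < n → p c < q c)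
    (hdis : ∀ c d, c < n → d < n → c ≠ d → q c < p d ∨ q d < p c) {c t : ℕ} (hc : c < n)
    (h1 : p c < t) (h2 : t ≤ q c) : rho n p q t = p c + 1 + q c - t := by
  have h : ∃ c, c < n ∧ p c < t ∧ t ≤ q c := ⟨c, hc, h1, h2⟩
  have hcc : h.choose = c := by
    by_contra hne
    obtain ⟨g1, g2, g3⟩ := h.choose_spec
    have h5 := hpq c hc
    rcases hdis _ _ g1 hc hne with h6 | h6 <;> omega
  rw [rho, dif_pos h, hcc]

theorem rho_out {t : ℕ} (h : ∀ c, c < n → ¬ (p c < t ∧ t ≤ q c)) : rho n p q t = t := by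
  rw [rho, dif_neg]
  rintro ⟨c, hc, h1⟩
  exact h c hc h1

/-- several switches in a Hamiltonian cycle at once -/
theorem multi_switch (f : ℕ → V) (N n : ℕ) (p q : ℕ → ℕ) (hpq : ∀ c, c < n → p c < q c)
    (hq : ∀ c, c < n → q c < N)
    (hdis : ∀ c d, c < n → d < n → c ≠ d → q c < p d ∨ q d < p c) (h3 : 3 ≤ N)
    (hN : f N = f 0) (hinj : Set.InjOn f (Set.Iio N)) (hsurj : ∀ v, ∃ j, j < N ∧ f j = v) :
    IsHC {e | (∃ t, t < N ∧ (∀ c, c < n → t ≠ p c ∧ t ≠ q c) ∧ e = s(f t, f (t + 1))) ∨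
      ∃ c, c < n ∧ (e = s(f (p c), f (q c)) ∨ e = s(f (p c + 1), f (q c + 1)))} := by
  have hin := fun {c t : ℕ} (hc : c < n) (h1 : p c < t) (h2 : t ≤ q c) =>
    rho_in hpq hdis hc h1 h2
  have hout := fun {t : ℕ} (h : ∀ c, c < n → ¬ (p c < t ∧ t ≤ q c)) => rho_out h
  have h00 : rho n p q 0 = 0 := hout (fun c _ h => by omega)
  have hNN : rho n p q N = N := hout (fun c hc h => by have := hq c hc; omega)
  -- the time reversal is an involution preserving `[0, N)`
  have hlt : ∀ t, t < N → rho n p q t < N := by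
    intro t ht
    by_cases h : ∃ c, c < n ∧ p c < t ∧ t ≤ q c
    · obtain ⟨c, hc, h1, h2⟩ := h
      rw [hin hc h1 h2]
      have := hq c hc
      omega
    · rw [hout (fun c hc h' => h ⟨c, hc, h'⟩)]
      exact ht
  have hinv : ∀ t, rho n p q (rho n p q t) = t := by
    intro t
    by_cases h : ∃ c, c < n ∧ p c < t ∧ t ≤ q c
    · obtain ⟨c, hc, h1, h2⟩ := h
      rw [hin hc h1 h2, hin hc (by omega) (by omega)]
      omega
    · rw [hout (t := t) (fun c hc h' => h ⟨c, hc, h'⟩), hout (fun c hc h' => h ⟨c, hc, h'⟩)]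
  refine ⟨N, fun t => f (rho n p q t), ⟨h3, ?_, ?_⟩, ?_, ?_⟩
  · simp only [h00, hNN, hN]
  · intro a ha b hb hab
    have h5 := hinj (hlt a ha) (hlt b hb) hab
    rw [← hinv a, ← hinv b, h5]
  · intro v
    obtain ⟨j, hj, rfl⟩ := hsurj v
    exact ⟨rho n p q j, hlt j hj, by simp only [hinv]⟩
  · -- the key facts about boundaries of the intervals
    have hp0 : ∀ c, c < n → rho n p q (p c) = p c := by
      intro c hc
      refine hout (fun d hd h => ?_)
      by_cases hcd : c = d
      · subst hcd; omega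
      · have h5 := hpq c hc
        rcases hdis c d hc hd hcd with h6 | h6 <;> omega
    have hp1 : ∀ c, c < n → rho n p q (p c + 1) = q c := by
      intro c hc
      have h5 := hpq c hc
      rw [hin hc (by omega) (by omega)]
      omega
    have hq0 : ∀ c, c < n → rho n p q (q c) = p c + 1 := by
      intro c hc
      have h5 := hpq c hc
      rw [hin hc (by omega) (by omega)]
      omega
    have hq1 : ∀ c, c < n → rho n p q (q c + 1) = q c + 1 := by
      intro c hc
      refine hout (fun d hd h => ?_)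
      by_cases hcd : c = d
      · subst hcd; omega
      · have h5 := hpq c hc
        rcases hdis c d hc hd hcd with h6 | h6 <;> omega
    ext e
    constructor
    · rintro (⟨t, ht, hne, rfl⟩ | ⟨c, hc, rfl | rfl⟩)
      · by_cases h : ∃ c, c < n ∧ p c < t ∧ t ≤ q c
        · obtain ⟨c, hc, h1, h2⟩ := h
          have h4 := (hne c hc).2
          have h6 := hq c hc
          refine ⟨p c + q c - t, by omega, ?_⟩
          simp only
          rw [hin (t := p c + q c - t) hc (by omega) (by omega),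
            hin (t := p c + q c - t + 1) hc (by omega) (by omega), Sym2.eq_swap]
          congr 3 <;> omega
        · have h5 : ∀ c, c < n → ¬ (p c < t ∧ t ≤ q c) := fun c hc h' => h ⟨c, hc, h'⟩
          refine ⟨t, ht, ?_⟩
          simp only
          rw [hout h5, hout]
          intro c hc h'
          have h6 := hne c hc
          exact h5 c hc (by omega)
      · refine ⟨p c, by have := hq c hc; have := hpq c hc; omega, ?_⟩
        simp only [hp0 c hc, hp1 c hc]
      · refine ⟨q c, hq c hc, ?_⟩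
        simp only [hq0 c hc, hq1 c hc]
    · rintro ⟨t, ht, rfl⟩
      simp only
      by_cases hb : ∃ c, c < n ∧ (t = p c ∨ t = q c)
      · obtain ⟨c, hc, rfl | rfl⟩ := hb
        · right
          exact ⟨c, hc, Or.inl (by rw [hp0 c hc, hp1 c hc])⟩
        · right
          exact ⟨c, hc, Or.inr (by rw [hq0 c hc, hq1 c hc])⟩
      · left
        have hb' : ∀ c, c < n → t ≠ p c ∧ t ≠ q c :=
          fun c hc => ⟨fun h => hb ⟨c, hc, Or.inl h⟩, fun h => hb ⟨c, hc, Or.inr h⟩⟩
        by_cases h : ∃ c, c < n ∧ p c < t ∧ t ≤ q c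
        · obtain ⟨c, hc, h1, h2⟩ := h
          have h4 := (hb' c hc).2
          have h6 := hq c hc
          refine ⟨p c + q c - t, by omega, ?_, ?_⟩
          · intro d hd
            by_cases hcd : c = d
            · subst hcd
              omega
            · have h7 := hpq d hd
              rcases hdis c d hc hd hcd with h8 | h8 <;> omega
          · rw [hin (t := t) hc (by omega) (by omega),
              hin (t := t + 1) hc (by omega) (by omega), Sym2.eq_swap,
              show p c + 1 + q c - t = p c + q c - t + 1 by omega,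
              show p c + 1 + q c - (t + 1) = p c + q c - t by omega]
        · have h5 : ∀ c, c < n → ¬ (p c < t ∧ t ≤ q c) := fun c hc h' => h ⟨c, hc, h'⟩
          refine ⟨t, ht, hb', ?_⟩
          rw [hout h5, hout]
          intro c hc h'
          have h6 := hb' c hc
          exact h5 c hc (by omega)

end Switch

/-- the unswitched second cycle -/
def Yf (A B t : ℕ) : ZMod (A * B) × ZMod B := (((t / B : ℕ) : ZMod (A * B)), ((t - t / B : ℕ) : ZMod B))

/-- time of the first removed edge of the switch `c` -/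
def pf (B : ℕ) : ℕ → ℕ
  | 0 => B * (B * (B - 2))
  | d + 1 => B * (B * d) + (d + 1)

/-- time of the second removed edge of the switch `c` -/
def qf (B : ℕ) : ℕ → ℕ
  | 0 => B * (B * (B - 1) + 1) + 1
  | d + 1 => B * (B * d + B - 1) + d

theorem Yf_eq (A B x r : ℕ) (hr : r < B) :
    Yf A B (B * x + r) = ((x : ZMod (A * B)), (r : ZMod B) - (x : ZMod B)) := by
  have h1 : (B * x + r) / B = x := by
    rw [Nat.mul_add_div (by omega), Nat.div_eq_of_lt hr, Nat.add_zero]
  have h2 : x ≤ B * x + r := by nlinarith [Nat.zero_le x]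
  rw [Yf, h1, Nat.cast_sub h2]
  push_cast
  ext <;> simp

theorem sp_iff (A B x r : ℕ) (hx : x < A * B) (hr : r < B) :
    sp A B (x : ZMod (A * B)) ((r : ZMod B) - (x : ZMod B)) ↔ r = B - 1 := by
  have : NeZero B := ⟨by omega⟩
  have h1 : ((x : ZMod (A * B))).val = x := ZMod.val_natCast_of_lt hx
  have h2 : (x + ((r : ZMod B) - (x : ZMod B)).val) % B = r := by
    have h3 : ((x + ((r : ZMod B) - (x : ZMod B)).val : ℕ) : ZMod B) = (r : ZMod B) := by
      push_cast
      rw [ZMod.natCast_zmod_val]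
      ring
    have h4 := (ZMod.natCast_eq_natCast_iff _ _ _).1 h3
    rw [Nat.ModEq, Nat.mod_eq_of_lt hr] at h4
    exact h4
  rw [sp, h1, h2]

/-- the data of the switch `c` -/
theorem data (A B c : ℕ) (hB : 4 ≤ B) (hBA : B ≤ A) (hc : c < B - 1) :
    ∃ x y r s : ℕ, pf B c = B * x + r ∧ qf B c = B * y + s ∧ r + 1 < B ∧ s + 1 < B ∧
      x < A * B ∧ y < A * B ∧ (r : ZMod B) - (x : ZMod B) = c ∧ (s : ZMod B) - (y : ZMod B) = c ∧
      (((x : ZMod (A * B)) = tc A B c ∧ (y : ZMod (A * B)) = sg A B (tc A B c)) ∨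
        ((x : ZMod (A * B)) = sg A B (tc A B c) ∧ (y : ZMod (A * B)) = tc A B c)) ∧
      pf B c < qf B c ∧ qf B c < A * B * B := by
  obtain ⟨b, rfl⟩ : ∃ b, B = b + 4 := ⟨B - 4, by omega⟩
  obtain ⟨a, rfl⟩ : ∃ a, A = a + (b + 4) := ⟨A - (b + 4), by omega⟩
  have hsub2 : b + 4 - 2 = b + 2 := by omega
  have hsub1 : b + 4 - 1 = b + 3 := by omega
  rcases c with _ | d
  · refine ⟨(b + 4) * (b + 2), (b + 4) * (b + 3) + 1, 0, 1, ?_, ?_, by omega, by omega, ?_, ?_, ?_,
      ?_, Or.inl ⟨?_, ?_⟩, ?_, ?_⟩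
    · rw [pf, hsub2]; ring
    · rw [qf, hsub1]
    · nlinarith
    · nlinarith
    · push_cast
      have h := ZMod.natCast_self (b + 4)
      push_cast at h
      rw [h]; simp
    · push_cast
      have h := ZMod.natCast_self (b + 4)
      push_cast at h
      rw [h]; simp
    · rw [tc, if_pos rfl, hsub2]
    · have h1 : tc (a + (b + 4)) (b + 4) 0 = (((b + 4) * (b + 2) : ℕ) :
          ZMod ((a + (b + 4)) * (b + 4))) := by
        rw [tc, if_pos rfl, hsub2]
      have h2 : (((b + 4) * (b + 2) : ℕ) : ZMod ((a + (b + 4)) * (b + 4))).val =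
          (b + 4) * (b + 2) := ZMod.val_natCast_of_lt (by nlinarith)
      rw [h1, sg, h2, Nat.mul_mod_right, if_neg (by omega)]
      push_cast
      ring
    · rw [pf, qf, hsub1, hsub2]; nlinarith
    · rw [qf, hsub1]
      have h5 : (b + 4) * (b + 4) * (b + 4) ≤ (a + (b + 4)) * (b + 4) * (b + 4) :=
        Nat.mul_le_mul_right _ (Nat.mul_le_mul_right _ (by omega))
      nlinarith [Nat.zero_le (b * b)]
  · have hd : d < b + 2 := by omega
    have hsub3 : (b + 4) * d + (b + 4) - 1 = (b + 4) * d + (b + 3) := by omega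
    have hsub4 : (b + 4) * (d + 1) - 1 = (b + 4) * d + (b + 3) := by
      rw [Nat.mul_add, Nat.mul_one]; omega
    have h1 : tc (a + (b + 4)) (b + 4) (d + 1) = (((b + 4) * d + (b + 3) : ℕ) :
        ZMod ((a + (b + 4)) * (b + 4))) := by
      rw [tc, if_neg (by omega), hsub4]
    have h3 : (b + 4) * d + (b + 3) < (a + (b + 4)) * (b + 4) := by nlinarith
    have h2 : (((b + 4) * d + (b + 3) : ℕ) : ZMod ((a + (b + 4)) * (b + 4))).val =
        (b + 4) * d + (b + 3) := ZMod.val_natCast_of_lt h3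
    have h4 : ((b + 4) * d + (b + 3)) % (b + 4) = b + 3 := by
      rw [Nat.mul_add_mod, Nat.mod_eq_of_lt (by omega)]
    refine ⟨(b + 4) * d, (b + 4) * d + (b + 3), d + 1, d, ?_, ?_, by omega, by omega, ?_, ?_, ?_,
      ?_, Or.inr ⟨?_, ?_⟩, ?_, ?_⟩
    · rw [pf]
    · rw [qf, hsub3]
    · nlinarith
    · exact h3
    · push_cast
      have h := ZMod.natCast_self (b + 4)
      push_cast at h
      rw [h]; simp
    · push_cast
      have h := ZMod.natCast_self (b + 4)
      push_cast at h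
      linear_combination (-(d : ZMod (b + 4)) - 1) * h
    · rw [h1, sg, h2, h4, if_pos (by omega), hsub1]
      push_cast
      ring
    · rw [h1]
    · rw [pf, qf, hsub3]; nlinarith
    · rw [qf, hsub3]; nlinarith

/-- the switches are in disjoint intervals -/
theorem disj (B : ℕ) (hB : 4 ≤ B) (c d : ℕ) (hc : c < B - 1) (hd : d < B - 1) (hcd : c ≠ d) :
    qf B c < pf B d ∨ qf B d < pf B c := by
  obtain ⟨b, rfl⟩ : ∃ b, B = b + 4 := ⟨B - 4, by omega⟩
  have hsub2 : b + 4 - 2 = b + 2 := by omega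
  have hsub3 : ∀ d, (b + 4) * d + (b + 4) - 1 = (b + 4) * d + (b + 3) := by intro d; omega
  rcases c with _ | c <;> rcases d with _ | d
  · exact absurd rfl hcd
  · right
    rw [pf, qf, hsub3, hsub2]
    have h1 : d < b + 2 := by omega
    have h2 : (b + 4) * ((b + 4) * (d + 1)) ≤ (b + 4) * ((b + 4) * (b + 2)) :=
      Nat.mul_le_mul_left _ (Nat.mul_le_mul_left _ (by omega))
    nlinarith
  · left
    rw [pf, qf, hsub3, hsub2]
    have h1 : c < b + 2 := by omega
    have h2 : (b + 4) * ((b + 4) * (c + 1)) ≤ (b + 4) * ((b + 4) * (b + 2)) :=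
      Nat.mul_le_mul_left _ (Nat.mul_le_mul_left _ (by omega))
    nlinarith
  · rw [pf, qf, pf, qf, hsub3, hsub3]
    rcases lt_or_gt_of_ne hcd with h | h
    · left
      have h2 : (b + 4) * ((b + 4) * (c + 1)) ≤ (b + 4) * ((b + 4) * d) :=
        Nat.mul_le_mul_left _ (Nat.mul_le_mul_left _ (by omega))
      nlinarith
    · right
      have h2 : (b + 4) * ((b + 4) * (d + 1)) ≤ (b + 4) * ((b + 4) * c) :=
        Nat.mul_le_mul_left _ (Nat.mul_le_mul_left _ (by omega))
      nlinarith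

theorem decomp (A B t : ℕ) (hB : 0 < B) (ht : t < A * B * B) :
    ∃ x r, t = B * x + r ∧ x < A * B ∧ r < B :=
  ⟨t / B, t % B, (Nat.div_add_mod t B).symm, Nat.div_lt_of_lt_mul (by rwa [Nat.mul_comm B]),
    Nat.mod_lt _ hB⟩

theorem Yf_inj (A B : ℕ) (hB : 0 < B) : Set.InjOn (Yf A B) (Set.Iio (A * B * B)) := by
  intro t ht t' ht' h
  obtain ⟨x, r, rfl, hx, hr⟩ := decomp A B t hB ht
  obtain ⟨x', r', rfl, hx', hr'⟩ := decomp A B t' hB ht'
  rw [Yf_eq A B x r hr, Yf_eq A B x' r' hr', Prod.mk.injEq] at h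
  obtain ⟨h1, h2⟩ := h
  have h3 : x = x' := by
    have h4 := congrArg ZMod.val h1
    rwa [ZMod.val_natCast_of_lt hx, ZMod.val_natCast_of_lt hx'] at h4
  subst h3
  have h5 : (r : ZMod B) = (r' : ZMod B) := sub_left_injective h2
  have h6 : r = r' := by
    have h4 := congrArg ZMod.val h5
    rwa [ZMod.val_natCast_of_lt hr, ZMod.val_natCast_of_lt hr'] at h4
  rw [h6]

theorem Yf_surj (A B : ℕ) (hB : 0 < B) (hA : 0 < A) (v : ZMod (A * B) × ZMod B) :
    ∃ x r, x < A * B ∧ r < B ∧ v = ((x : ZMod (A * B)), (r : ZMod B) - (x : ZMod B)) := by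
  have : NeZero B := ⟨by omega⟩
  have : NeZero (A * B) := ⟨by positivity⟩
  refine ⟨v.1.val, (v.2 + (v.1.val : ZMod B)).val, ZMod.val_lt _, ZMod.val_lt _, ?_⟩
  rw [ZMod.natCast_zmod_val, ZMod.natCast_zmod_val]
  ext <;> simp

theorem t0y : StmT0Y := by
  intro A B hB hBA hA _
  have hle : B ≤ A := Nat.le_of_dvd hA hBA
  have : NeZero B := ⟨by omega⟩
  have : NeZero (A * B) := ⟨by positivity⟩
  have hMB : (((A * B : ℕ)) : ZMod B) = 0 := by
    rw [ZMod.natCast_eq_zero_iff]; exact Dvd.intro_left A rfl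
  have hlt : ∀ x r, x < A * B → r < B → B * x + r < A * B * B := by
    intro x r hx hr
    have h1 : B * (x + 1) ≤ B * (A * B) := Nat.mul_le_mul_left _ hx
    nlinarith
  have hclosed : Yf A B (A * B * B) = Yf A B 0 := by
    have h1 := Yf_eq A B (A * B) 0 (by omega)
    have h2 := Yf_eq A B 0 0 (by omega)
    rw [show A * B * B = B * (A * B) + 0 by ring, h1, show (0 : ℕ) = B * 0 + 0 by ring, h2]
    rw [hMB, ZMod.natCast_self]
    simp
  have hsurj : ∀ v, ∃ j, j < A * B * B ∧ Yf A B j = v := by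
    intro v
    obtain ⟨x, r, hx, hr, rfl⟩ := Yf_surj A B (by omega) hA v
    exact ⟨B * x + r, hlt x r hx hr, Yf_eq A B x r hr⟩
  have hinj := Yf_inj A B (by omega)
  have key := multi_switch (Yf A B) (A * B * B) (B - 1) (pf B) (qf B)
    (fun c hc => by obtain ⟨x, y, r, s, -, -, -, -, -, -, -, -, -, h, -⟩ := data A B c hB hle hc
                    exact h)
    (fun c hc => by obtain ⟨x, y, r, s, -, -, -, -, -, -, -, -, -, -, h⟩ := data A B c hB hle hc
                    exact h)
    (fun c d hc hd hcd => disj B hB c d hc hd hcd)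
    (by
      have g1 : 1 * 1 * B ≤ A * B * B := Nat.mul_le_mul_right _ (Nat.mul_le_mul (by omega) (by omega))
      omega) hclosed hinj hsurj
  convert key using 1
  -- the steps of the unswitched cycle
  have hstep1 : ∀ x r, r + 1 < B → Yf A B (B * x + r + 1) =
      ((x : ZMod (A * B)), (r : ZMod B) - (x : ZMod B) + 1) := by
    intro x r hr
    rw [Nat.add_assoc, Yf_eq A B x (r + 1) hr]
    push_cast
    ext <;> simp; ring
  have hstep2 : ∀ x, Yf A B (B * x + (B - 1) + 1) =
      ((x : ZMod (A * B)) + 1, ((B - 1 : ℕ) : ZMod B) - (x : ZMod B)) := by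
    intro x
    have h1 : B * x + (B - 1) + 1 = B * (x + 1) + 0 := by
      rw [Nat.mul_add, Nat.mul_one]; omega
    rw [h1, Yf_eq A B (x + 1) 0 (by omega), Nat.cast_sub (by omega), ZMod.natCast_self]
    push_cast
    ext <;> simp; ring
  -- a time is switched iff its place is
  have hsw : ∀ t, t < A * B * B → ((∀ c, c < B - 1 → t ≠ pf B c ∧ t ≠ qf B c) ↔
      ¬ ∃ c, c < B - 1 ∧ (Yf A B t).2 = (c : ZMod B) ∧
        ((Yf A B t).1 = tc A B c ∨ (Yf A B t).1 = sg A B (tc A B c))) := by
    intro t ht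
    constructor
    · rintro h ⟨c, hc, h1, h2⟩
      obtain ⟨h3, h4⟩ := h c hc
      obtain ⟨x, y, r, s, e1, e2, e3, e4, e5, e6, e7, e8, e9, e10, e11⟩ := data A B c hB hle hc
      have g1 : Yf A B (pf B c) = ((x : ZMod (A * B)), (c : ZMod B)) := by
        rw [e1, Yf_eq A B x r (by omega), e7]
      have g2 : Yf A B (qf B c) = ((y : ZMod (A * B)), (c : ZMod B)) := by
        rw [e2, Yf_eq A B y s (by omega), e8]
      have g3 : (Yf A B t).1 = (x : ZMod (A * B)) ∨ (Yf A B t).1 = (y : ZMod (A * B)) := by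
        rcases e9 with ⟨e9, e9'⟩ | ⟨e9, e9'⟩ <;> rw [e9, e9'] <;> tauto
      rcases g3 with g3 | g3
      · refine h3 (hinj ht (show pf B c < A * B * B by omega) ?_)
        rw [g1, ← h1, ← g3]
      · refine h4 (hinj ht e11 ?_)
        rw [g2, ← h1, ← g3]
    · intro h c hc
      obtain ⟨x, y, r, s, e1, e2, e3, e4, e5, e6, e7, e8, e9, e10, e11⟩ := data A B c hB hle hc
      have g1 : Yf A B (pf B c) = ((x : ZMod (A * B)), (c : ZMod B)) := by
        rw [e1, Yf_eq A B x r (by omega), e7]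
      have g2 : Yf A B (qf B c) = ((y : ZMod (A * B)), (c : ZMod B)) := by
        rw [e2, Yf_eq A B y s (by omega), e8]
      constructor
      · rintro rfl
        refine h ⟨c, hc, ?_, ?_⟩
        · rw [g1]
        · rw [g1]
          rcases e9 with ⟨e9, e9'⟩ | ⟨e9, e9'⟩
          · left; exact e9
          · right; exact e9
      · rintro rfl
        refine h ⟨c, hc, ?_, ?_⟩
        · rw [g2]
        · rw [g2]
          rcases e9 with ⟨e9, e9'⟩ | ⟨e9, e9'⟩
          · right; exact e9'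
          · left; exact e9'
  -- the removed edges are vertical
  have hvert : ∀ x, x < A * B → ∀ c, c < B - 1 →
      B * x + (B - 1) ≠ pf B c ∧ B * x + (B - 1) ≠ qf B c := by
    intro x hx c hc
    obtain ⟨x', y, r, s, e1, e2, e3, e4, e5, e6, e7, e8, e9, e10, e11⟩ := data A B c hB hle hc
    have hmod : ∀ z u, u < B → (B * z + u) % B = u := by
      intro z u hu
      rw [Nat.mul_add_mod, Nat.mod_eq_of_lt hu]
    constructor
    · intro h
      rw [e1] at h
      have h' := congrArg (· % B) h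
      simp only [hmod _ _ (show B - 1 < B by omega), hmod _ _ (show r < B by omega)] at h'
      omega
    · intro h
      rw [e2] at h
      have h' := congrArg (· % B) h
      simp only [hmod _ _ (show B - 1 < B by omega), hmod _ _ (show s < B by omega)] at h'
      omega
  have hch1 : ∀ c, c < B - 1 → s(Yf A B (pf B c), Yf A B (qf B c)) =
        s((tc A B c, (c : ZMod B)), (sg A B (tc A B c), (c : ZMod B))) := by
    intro c hc
    obtain ⟨x, y, r, s, e1, e2, e3, e4, e5, e6, e7, e8, e9, e10, e11⟩ := data A B c hB hle hc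
    rw [e1, e2, Yf_eq A B x r (by omega), Yf_eq A B y s (by omega), e7, e8]
    rcases e9 with ⟨e9, e9'⟩ | ⟨e9, e9'⟩
    · rw [e9, e9']
    · rw [e9, e9', Sym2.eq_swap]
  have hch2 : ∀ c, c < B - 1 → s(Yf A B (pf B c + 1), Yf A B (qf B c + 1)) =
        s((tc A B c, (c : ZMod B) + 1), (sg A B (tc A B c), (c : ZMod B) + 1)) := by
    intro c hc
    obtain ⟨x, y, r, s, e1, e2, e3, e4, e5, e6, e7, e8, e9, e10, e11⟩ := data A B c hB hle hc
    rw [e1, e2, hstep1 x r e3, hstep1 y s e4, e7, e8]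
    rcases e9 with ⟨e9, e9'⟩ | ⟨e9, e9'⟩
    · rw [e9, e9']
    · rw [e9, e9', Sym2.eq_swap]
  ext e
  constructor
  · rintro (⟨t, w, hs, rfl⟩ | ⟨t, w, hs, hn, rfl⟩ | ⟨c, hc, h⟩)
    · obtain ⟨x, r, hx, hr, hv⟩ := Yf_surj A B (by omega) hA (t, w)
      rw [Prod.mk.injEq] at hv
      obtain ⟨rfl, rfl⟩ := hv
      rw [sp_iff A B x r hx hr] at hs
      subst hs
      left
      refine ⟨B * x + (B - 1), hlt x _ hx hr, hvert x hx, ?_⟩
      rw [hstep2, Yf_eq A B x _ hr]
    · obtain ⟨x, r, hx, hr, hv⟩ := Yf_surj A B (by omega) hA (t, w)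
      rw [Prod.mk.injEq] at hv
      obtain ⟨rfl, rfl⟩ := hv
      rw [sp_iff A B x r hx hr] at hs
      left
      refine ⟨B * x + r, hlt x _ hx hr, ?_, ?_⟩
      · rw [hsw _ (hlt x _ hx hr), Yf_eq A B x r hr]
        exact hn
      · rw [hstep1 x r (by omega), Yf_eq A B x _ hr]
    · right
      refine ⟨c, hc, ?_⟩
      rw [hch1 c hc, hch2 c hc]
      exact h
  · rintro (⟨t, ht, hn, rfl⟩ | ⟨c, hc, h⟩)
    · have hn' := (hsw t ht).1 hn
      obtain ⟨x, r, rfl, hx, hr⟩ := decomp A B t (by omega) ht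
      by_cases hrB : r = B - 1
      · subst hrB
        left
        refine ⟨_, _, (sp_iff A B x _ hx hr).2 rfl, ?_⟩
        rw [hstep2, Yf_eq A B x _ hr]
      · right
        left
        rw [Yf_eq A B x r hr] at hn'
        refine ⟨_, _, fun h => hrB ((sp_iff A B x r hx hr).1 h), hn', ?_⟩
        rw [hstep1 x r (by omega), Yf_eq A B x _ hr]
    · right
      right
      refine ⟨c, hc, ?_⟩
      rw [← hch1 c hc, ← hch2 c hc]
      exact h

end Pool.Agent.K3h77.Erde
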